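import Pool.Agent.H133.LD.Fin

/-!
# A local form of Dey's bound, and monotone paths with few straight passes

The lines are `y = a l * x + B l`, `l : Fin n`. Definitions:

* `ht a B l x = a l * x + B l`, `Simple a B`: no two of the lines coincide and no three pass through
  a common point (parallel lines are allowed), `level a B k x`: the height of the `(k+1)`-st lowest
  line above `x`, `psi a B k`: the number of abscissae near which the `k`-level does not follow a
  single line, i.e. the number of its vertices (library, `SmoothedLevel.lean`).
* In `Pool/Agent/H133/LD/Path.lean`, for `f : ℝ → ℝ` and `I ⊆ ℝ`: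
  `IsPath a B f I`: `f` is continuous on `I` and its graph over `I` is contained in the union of the
  lines, i.e. `f` is an `x`-monotone path in the arrangement above `I`;
  `linesOf a B f I`: the lines `l` which `f` follows near some `x ∈ I`;
  `turns a B f I`: the `x ∈ I` near which `f` does not follow a single line (for `f` the `k`-level
  and `I = ℝ` these are the vertices of the `k`-level);
  `passes a B f I`: the `x ∈ I` near which `f` follows a single line and where it goes through a
  crossing of two lines (the path passes straight through a vertex of the arrangement);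
  `cross a B f I`: the pairs `i < j` in `linesOf a B f I` which cross above `I`.
* `Bound A γ` (`Pool/Agent/H133/LD/Main.lean`): every level of every simple arrangement of `m` lines
  has at most `A m ^ (2 γ)` vertices, for all `m`.

Proof idea. Above an interval without straight passes a line which the path does not follow stays
on one side of it, so the path is the `j`-level of the arrangement of its own lines, for some `j`.
A line which is on the path at some time changes its rank among these lines by one at each of its
crossings; comparison of the ranks at both ends of the interval with `j` gives that `N` lines have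
at least `(N ^ 2 - 1) / 4` crossings. Then Dey's bound for the `N` lines gives the local bound, and
the sum over the pieces between the straight passes gives the bound for paths.
-/

set_option autoImplicit false

open scoped Topology

namespace Pool.Agent.Results.MP_a08d0a_co.LocalDeyBound

open Pool.Agent.Results.MP_a08d0a_co.SmoothedLevel (Simple psi level)
open Pool.Agent.H133.LD

/-- **Local form of Dey's bound.** Let `n` lines be given, no two equal and no three concurrent, and
let `I` be an open interval (bounded or not).
1. For `k < n` let `N` be the number of lines which the `k`-level follows somewhere above `I` and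
   `X` the number of crossings of these lines above `I`. Then `N ^ 2 ≤ 4 X + 1`, and the number of
   vertices of the `k`-level above `I` is at most `85 X ^ (2 / 3)` and at most
   `29 √(4 X + 1) (k + 1) ^ (1 / 3)`.
2. An `x`-monotone path above `I` in the arrangement with `T` turns which passes straight through
   `S` vertices of the arrangement has `T ≤ 85 (S + 1) ^ (1 / 3) X ^ (2 / 3)`, where `X` is the
   number of crossings above `I` of the lines which it follows.
3. If every level of every simple arrangement of `m` lines has at most `A m ^ (2 γ)` vertices, then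
   `T ≤ A (S + 1) ^ (1 - γ) (5 X) ^ γ`.
4. `N ^ 2 ≤ 4 X + 1` is sharp: for every `m` there are `2 m + 1` lines which all appear on the
   `m`-level and have only `m (m + 1)` crossings. -/
theorem result :
    (∀ (n : ℕ) (a B : Fin n → ℝ), Simple a B → ∀ I : Set ℝ, IsOpen I → I.OrdConnected →
      (∀ k < n,
        (linesOf a B (level a B k) I).ncard ^ 2 ≤
          4 * (cross a B (level a B k) I).ncard + 1 ∧
        (turns a B (level a B k) I).Finite ∧
        ((turns a B (level a B k) I).ncard : ℝ) ≤
          85 * ((cross a B (level a B k) I).ncard : ℝ) ^ (2 / 3 : ℝ) ∧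
        ((turns a B (level a B k) I).ncard : ℝ) ≤
          29 * √(4 * (cross a B (level a B k) I).ncard + 1) * ((k : ℝ) + 1) ^ (1 / 3 : ℝ)) ∧
      ∀ f : ℝ → ℝ, IsPath a B f I →
        (turns a B f I).Finite ∧ (passes a B f I).Finite ∧
        ((turns a B f I).ncard : ℝ) ≤
          85 * (((passes a B f I).ncard : ℝ) + 1) ^ (1 / 3 : ℝ) *
            ((cross a B f I).ncard : ℝ) ^ (2 / 3 : ℝ) ∧
        ∀ A γ : ℝ, 0 ≤ A → 0 ≤ γ → γ ≤ 1 → Bound A γ →
          ((turns a B f I).ncard : ℝ) ≤
            A * (((passes a B f I).ncard : ℝ) + 1) ^ (1 - γ) *
              (5 * ((cross a B f I).ncard : ℝ)) ^ γ) ∧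
    ∀ m : ℕ, ∃ a B : Fin (2 * m + 1) → ℝ, Simple a B ∧
      (linesOf a B (level a B m) Set.univ).ncard = 2 * m + 1 ∧
      (cross a B (level a B m) Set.univ).ncard = m * (m + 1) := by
  have hpath : ∀ (n : ℕ) (a B : Fin n → ℝ), Simple a B → ∀ I : Set ℝ, IsOpen I →
      I.OrdConnected → ∀ f : ℝ → ℝ, IsPath a B f I →
      ((turns a B f I).ncard : ℝ) ≤
        85 * (((passes a B f I).ncard : ℝ) + 1) ^ (1 / 3 : ℝ) *
          ((cross a B f I).ncard : ℝ) ^ (2 / 3 : ℝ) := by
    intro n a B hS I hI hIc f hf
    have h1 := (path_bound (by norm_num : (0 : ℝ) ≤ 29) (by norm_num : (0 : ℝ) ≤ 2 / 3)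
      (by norm_num) bound_dey hS hI hIc hf).2.2
    refine h1.trans ?_
    have h2 := const_85 ((cross a B f I).ncard : ℝ) (by positivity)
    have h3 : (0 : ℝ) ≤ (((passes a B f I).ncard : ℝ) + 1) ^ (1 / 3 : ℝ) := by positivity
    rw [show (1 - 2 / 3 : ℝ) = 1 / 3 by norm_num]
    calc 29 * (((passes a B f I).ncard : ℝ) + 1) ^ (1 / 3 : ℝ) *
          (5 * ((cross a B f I).ncard : ℝ)) ^ (2 / 3 : ℝ)
        = (((passes a B f I).ncard : ℝ) + 1) ^ (1 / 3 : ℝ) *
          (29 * (5 * ((cross a B f I).ncard : ℝ)) ^ (2 / 3 : ℝ)) := by ring
      _ ≤ (((passes a B f I).ncard : ℝ) + 1) ^ (1 / 3 : ℝ) *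
          (85 * ((cross a B f I).ncard : ℝ) ^ (2 / 3 : ℝ)) :=
          mul_le_mul_of_nonneg_left h2 h3
      _ = _ := by ring
  refine ⟨fun n a B hS I hI hIc => ⟨fun k hk => ?_, fun f hf => ?_⟩, fun m => ?_⟩
  · have hf := level_path (a := a) (B := B) hk I
    have hno := level_passes hS hk I
    refine ⟨?_, turns_finite hS hI hf, ?_, level_local hS hk hI hIc⟩
    · rw [← LF_card]
      exact lines_sq hS hI hIc hf hno
    · have h := hpath n a B hS I hI hIc _ hf
      rw [hno, Set.ncard_empty, Nat.cast_zero, zero_add, Real.one_rpow, mul_one] at h
      exact h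
  · have h1 := path_bound (by norm_num : (0 : ℝ) ≤ 29) (by norm_num : (0 : ℝ) ≤ 2 / 3)
      (by norm_num) bound_dey hS hI hIc hf
    exact ⟨h1.1, h1.2.1, hpath n a B hS I hI hIc f hf, fun A γ hA h0 h1 hB =>
      (path_bound hA h0 h1 hB hS hI hIc hf).2.2⟩
  · refine ⟨sa m, sB m, simple_s m, ?_, cross_s m⟩
    rw [all_lines, Set.ncard_univ, Nat.card_eq_fintype_card, Fintype.card_fin]

end Pool.Agent.Results.MP_a08d0a_co.LocalDeyBound
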